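import Mathlib

set_option autoImplicit false
set_option maxHeartbeats 400000

open scoped commutatorElement

namespace Pool.Agent.Results.MP_1cb079_al.WCL

/-- `G[n]` is finite for every `n > 0`. -/
def AlmostTorsionFree (G : Type*) [Group G] : Prop :=
  ∀ n : ℕ, 0 < n → {g : G | g ^ n = 1}.Finite

/-- every power map `x ↦ x ^ n`, `n > 0`, has finite fibres. -/
def SatisfiesWCL (G : Type*) [Group G] : Prop :=
  ∀ n : ℕ, 0 < n → ∀ y : G, {x : G | x ^ n = y}.Finite

theorem step {H : Type*} [Group H] (S : Set H) (hS : Subgroup.closure S = ⊤) (n : ℕ)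
    (hs : ∀ s ∈ S, ∀ u : H, ⁅u, s ^ n⁆ = 1) (A : Subgroup H) [A.Normal]
    (x : H) (hx : x ∈ ⁅A, (⊤ : Subgroup H)⁆) :
    x ^ n ∈ ⁅⁅A, (⊤ : Subgroup H)⁆, (⊤ : Subgroup H)⁆ := by
  set B : Subgroup H := ⁅A, (⊤ : Subgroup H)⁆ with hB
  set N : Subgroup H := ⁅B, (⊤ : Subgroup H)⁆ with hN
  let π : H →* H ⧸ N := QuotientGroup.mk' N
  have cen : ∀ y ∈ B, ∀ g : H, Commute (π y) (π g) := by
    intro y hy g
    rw [← commutatorElement_eq_one_iff_commute, ← map_commutatorElement]
    exact (QuotientGroup.eq_one_iff _).2 (Subgroup.commutator_mem_commutator hy trivial)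
  have h1 : ∀ u ∈ A, ∀ g : H, (π ⁅u, g⁆) ^ n = 1 := by
    intro u hu
    have mem : ∀ g : H, ⁅u, g⁆ ∈ B := fun g => Subgroup.commutator_mem_commutator hu trivial
    let φ : H →* H ⧸ N := MonoidHom.mk' (fun g => π ⁅u, g⁆) (by
      intro g h
      have e : ⁅u, g * h⁆ = ⁅u, g⁆ * (g * ⁅u, h⁆ * g⁻¹) := by
        simp only [commutatorElement_def]; group
      rw [e, map_mul, map_mul, map_mul, ← (cen _ (mem h) g).eq, map_inv, mul_inv_cancel_right])
    intro g
    have hg : g ∈ Subgroup.closure S := by rw [hS]; trivial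
    show (φ g) ^ n = 1
    induction hg using Subgroup.closure_induction with
    | mem s h =>
      rw [← map_pow]
      show π ⁅u, s ^ n⁆ = 1
      rw [hs s h u, map_one]
    | one => simp
    | mul a b _ _ ha hb =>
      have : Commute (φ a) (φ b) := cen _ (mem a) _
      rw [map_mul, this.mul_pow, ha, hb, one_mul]
    | inv a _ ha => rw [map_inv, inv_pow, ha, inv_one]
  have h2 : x ∈ B ∧ (π x) ^ n = 1 := by
    rw [hB, Subgroup.commutator_def] at hx
    induction hx using Subgroup.closure_induction with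
    | mem s h =>
      obtain ⟨u, hu, g, _, rfl⟩ := h
      exact ⟨Subgroup.commutator_mem_commutator hu trivial, h1 u hu g⟩
    | one => exact ⟨B.one_mem, by simp⟩
    | mul a b _ _ ha hb =>
      refine ⟨B.mul_mem ha.1 hb.1, ?_⟩
      rw [map_mul, (cen _ ha.1 b).mul_pow, ha.2, hb.2, one_mul]
    | inv a _ ha => exact ⟨B.inv_mem ha.1, by rw [map_inv, inv_pow, ha.2, inv_one]⟩
  have := h2.2
  rw [← map_pow] at this
  exact (QuotientGroup.eq_one_iff _).1 this

theorem iter {H : Type*} [Group H] (S : Set H) (hS : Subgroup.closure S = ⊤) (n : ℕ)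
    (hs : ∀ s ∈ S, ∀ u : H, ⁅u, s ^ n⁆ = 1) (x : H) (hx : x ∈ (⊤ : Subgroup H).lowerCentralSeries 1) (k : ℕ) :
    x ^ (n ^ k) ∈ (⊤ : Subgroup H).lowerCentralSeries (k + 1) := by
  induction k with
  | zero => simpa using hx
  | succ k ih =>
    rw [pow_succ, pow_mul]
    exact step S hS n hs ((⊤ : Subgroup H).lowerCentralSeries k) _ ih

theorem bound {G : Type*} [Group G] (c : ℕ) (hc : (⊤ : Subgroup G).lowerCentralSeries c = ⊥) (n : ℕ) (a b : G)
    (h : a ^ n = b ^ n) : (a * b⁻¹) ^ (n ^ (c + 1)) = 1 := by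
  let K : Subgroup G := Subgroup.closure {a, b}
  have ha : a ∈ K := Subgroup.subset_closure (by simp)
  have hb : b ∈ K := Subgroup.subset_closure (by simp)
  let a' : K := ⟨a, ha⟩
  let b' : K := ⟨b, hb⟩
  have h' : a' ^ n = b' ^ n := Subtype.ext h
  have hS : Subgroup.closure ({a', b'} : Set K) = ⊤ := by
    have : ({a', b'} : Set K) = (↑) ⁻¹' ({a, b} : Set G) := by
      ext z; simp [a', b', Subtype.ext_iff]
    rw [this]; exact Subgroup.closure_closure_coe_preimage
  have hcen : ∀ u : K, ⁅u, a' ^ n⁆ = 1 := by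
    intro u
    rw [commutatorElement_eq_one_iff_commute]
    have hu : u ∈ Subgroup.closure ({a', b'} : Set K) := by rw [hS]; trivial
    induction hu using Subgroup.closure_induction with
    | mem s h =>
      rcases h with rfl | rfl
      · exact Commute.self_pow _ _
      · rw [h']; exact Commute.self_pow _ _
    | one => exact Commute.one_left _
    | mul x y _ _ hx hy => exact hx.mul_left hy
    | inv x _ hx => exact hx.inv_left
  have hs : ∀ s ∈ ({a', b'} : Set K), ∀ u : K, ⁅u, s ^ n⁆ = 1 := by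
    rintro s (rfl | rfl) u
    · exact hcen u
    · rw [← h']; exact hcen u
  have h1 : (a' * b'⁻¹) ^ n ∈ (⊤ : Subgroup K).lowerCentralSeries 1 := by
    rw [Subgroup.top_lowerCentralSeries_one, ← Abelianization.ker_of, MonoidHom.mem_ker, map_pow, map_mul,
      mul_pow, ← map_pow, ← map_pow, inv_pow, h', ← map_mul, mul_inv_cancel, map_one]
  have h2 := iter _ hS n hs _ h1 c
  have h3 : K.subtype (((a' * b'⁻¹) ^ n) ^ (n ^ c)) ∈
      (⊤ : Subgroup G).lowerCentralSeries (c + 1) := by
    apply Subgroup.lowerCentralSeries_mono (c + 1) (le_top : K ≤ ⊤)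
    beta_reduce
    rw [← Subgroup.top_subtype_lowerCentralSeries]
    exact ⟨_, h2, rfl⟩
  have h4 := (⊤ : Subgroup G).lowerCentralSeries_antitone (Nat.le_succ c) h3
  rw [hc, Subgroup.mem_bot] at h4
  rw [pow_succ', pow_mul]
  simpa [a', b'] using h4

theorem result (G : Type*) [Group G] [Group.IsNilpotent G] (h : AlmostTorsionFree G) :
    SatisfiesWCL G := by
  intro n hn y
  obtain ⟨c, hc⟩ := Subgroup.nilpotent_iff_lowerCentralSeries.1 (inferInstance : Group.IsNilpotent G)
  by_cases he : ∃ b : G, b ^ n = y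
  · obtain ⟨b, rfl⟩ := he
    refine ((h (n ^ (c + 1)) (by positivity)).image (· * b)).subset ?_
    intro a ha
    exact ⟨a * b⁻¹, bound c hc n a b ha, by simp⟩
  · have : {x : G | x ^ n = y} = ∅ := by
      ext x; simp only [Set.mem_ofPred_eq, Set.mem_empty_iff_false, iff_false]
      exact fun hx => he ⟨x, hx⟩
    rw [this]; exact Set.finite_empty

end Pool.Agent.Results.MP_1cb079_al.WCL
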